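import Mathlib
import Pool.Agent.TH457.EntD.SI

/-!
# SetIntersection: already to decide emptiness needs total entanglement `N ^ 2 / (b T) ^ 2`

A family of `k` sets of total size at most `N` is preprocessed. The data structure (`DS`) has `s`
cells of `w` bits with arbitrary contents, queries read cells adaptively, the computation is free and
not uniform, and everything may be random. Only the following is required: for every pair of sets it
is decided with at most `T` probes whether they intersect, correctly with probability at least
`99 / 100`. (A structure which lists the intersections in time `C * (T + op)` also does this, with
`C * T` probes: stop after this time and say that the sets intersect.) The contents of each cell is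
described by a blackboard protocol with one player for each set of the family (every function of the
family can be described like this). A cell *entangles* a pair of sets if both of them write on the
blackboard, and together more than `b` bits.

Theorem: for all `T ≤ N / (2 * 10 ^ 6 * b)` the expected total number of pairs entangled by the cells
is at least `N ^ 2 / (10 ^ 15 * (b * T) ^ 2)` on some family of total size at most `N`.

So the number of cells is at least `N ^ 2 / (10 ^ 15 * (b * T) ^ 2 * r)` if each cell entangles at
most `r` pairs on the average. For polylogarithmic `T`, `b`, `r` this is the bound of the question,
for structures which do not list the intersections, but only decide whether they are empty, and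
which may err. The starting result EntanglementTradeoff needs the complete lists: its proof compares
the answer with the many possible lists.

Proof. Let `m` be of the order `b T`, let the universe have `u = m ^ 2` elements, put every element
into every set independently with probability `1 / m`, and let `k` be of the order `N / m`. Fix all
sets but two, `x` and `y`. If no cell entangles them then every probe partitions the pairs `(x, y)`
into `2 ^ (3 b)` rectangles, so the answer is constant on the rectangles of a partition into at most
`2 ^ (3 b T)` rectangles. By the two-point inequality of the starting result a rectangle of measure
`P` contains disjoint pairs of measure at most `(1 - 1 / (22 m ^ 2)) ^ u * P ^ (m / (m + 1))`. So in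
each rectangle which is not tiny at least a constant fraction of the pairs intersect: if the
procedure says disjoint as often as it must then it errs with more than constant probability.
Therefore each of the `k ^ 2 / 4` pairs is entangled with constant probability.
-/

set_option autoImplicit false

namespace Pool.Agent.Results.MP_f326ae_lc.EmptinessEntanglement

open Pool.Agent.TH457.EntD.SI

theorem result (N w b T : ℕ) (hb : 1 ≤ b) (hwb : w ≤ b) (hT : 1 ≤ T)
    (hN : 2 * 10 ^ 6 * (b * T) ≤ N) :
    ∃ k u : ℕ, ∀ (s : ℕ) (Ω : Type) [Fintype Ω] (p : Ω → ℝ) (D : Ω → DS k u w s),
      Solves p D T N → ∀ R : ℝ,
      (∀ F : Fin k → Finset (Fin u), ∑ l, (F l).card ≤ N →
        ∑ ω, p ω * ∑ c, (((D ω).entangled b F c).card : ℝ) ≤ R) →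
      (N : ℝ) ^ 2 ≤ 10 ^ 15 * (b * T) ^ 2 * R :=
  main N w b T hb hwb hT hN

end Pool.Agent.Results.MP_f326ae_lc.EmptinessEntanglement
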